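import Pool.Agent.Q48.Car.Step

/-!
# The chain of steps and the dimension count
-/

namespace Q48.Car

open Matrix

section chain

variable {R : Type*} [CommRing R] [CharP R 2] {n : ℕ}

/-- Composition of the steps: an injective operator sending symmetric matrices to solutions of
`E 0 * C + C * (E 0)ᵀ = C + Cᵀ`. -/
theorem chain (d : ℕ) (E B : ℕ → Mt R n) (x : ℕ → R) (hx : ∀ j, j < d → x j * x j = 0)
    (hE : ∀ j, j < d → E j = x j • B j + E (j + 1))
    (hc : ∀ j, j < d → E (j + 1) * B j + B j * E (j + 1) = 0) (hd : E d = 0) :
    ∃ T : Mt R n →ₗ[R] Mt R n, Function.Injective T ∧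
      ∀ C : Mt R n, C + Cᵀ = 0 → E 0 * T C + T C * (E 0)ᵀ = T C + (T C)ᵀ := by
  have key : ∀ m j, j + m = d → ∃ T : Mt R n →ₗ[R] Mt R n, Function.Injective T ∧
      ∀ C : Mt R n, C + Cᵀ = 0 → E j * T C + T C * (E j)ᵀ = T C + (T C)ᵀ := by
    intro m
    induction m with
    | zero =>
        intro j hj
        have : j = d := by omega
        subst this
        refine ⟨LinearMap.id, fun a b h => h, fun C hC => ?_⟩
        simp [hd, hC]
    | succ m ih =>
        intro j hj
        obtain ⟨T, hT, h⟩ := ih (j + 1) (by omega)
        refine ⟨(Tm (B j) (x j)).comp T, ?_, ?_⟩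
        · rw [LinearMap.coe_comp]
          exact (Tm_inj (B j) (x j) (hx j (by omega))).comp hT
        · intro C hC
          rw [LinearMap.comp_apply, Tm_apply, hE j (by omega)]
          exact step (E (j + 1)) (B j) (T C) (x j) (hx j (by omega)) (hc j (by omega)) (h C hC)
  exact key d 0 (by omega)

end chain

section filtration

variable {k V : Type*} [Field k] [AddCommGroup V] [Module k V] [FiniteDimensional k V]

/-- If `f` lowers the degree by one and `g` preserves it, then `dim ker (f + g) ≤ dim ker f`. -/
theorem finrank_ker_le (p : ℕ → V →ₗ[k] V) (N : ℕ)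
    (hN : ∀ v : V, (∀ m, m < N → p m v = 0) → v = 0)
    (hpp : ∀ m v, p m (p m v) = p m v) (hpq : ∀ m m' v, m ≠ m' → p m (p m' v) = 0)
    (f g : V →ₗ[k] V) (hf0 : ∀ v, f (p 0 v) = 0) (hf : ∀ m v, f (p (m + 1) v) = p m (f v))
    (hg : ∀ m v, g (p m v) = p m (g v)) :
    Module.finrank k (LinearMap.ker (f + g)) ≤ Module.finrank k (LinearMap.ker f) := by
  classical
  -- the filtration
  let F : ℕ → Submodule k V := fun m =>
    { carrier := {v | ∀ m', m' < m → p m' v = 0}
      add_mem' := by
        intro a b ha hb m' hm'
        rw [map_add, ha m' hm', hb m' hm', add_zero]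
      zero_mem' := by
        intro m' hm'
        exact map_zero _
      smul_mem' := by
        intro c a ha m' hm'
        rw [map_smul, ha m' hm', smul_zero] }
  have hFmem : ∀ m v, v ∈ F m ↔ ∀ m', m' < m → p m' v = 0 := fun m v => Iff.rfl
  have hFN : F N = ⊥ := by
    rw [eq_bot_iff]
    intro v hv
    exact (Submodule.mem_bot k).2 (hN v hv)
  have hF0 : F 0 = ⊤ := by
    rw [eq_top_iff]
    intro v _ m' hm'
    exact absurd hm' (Nat.not_lt_zero _)
  have hFs : ∀ m, F (m + 1) = F m ⊓ LinearMap.ker (p m) := by
    intro m
    ext v
    rw [Submodule.mem_inf, hFmem, hFmem, LinearMap.mem_ker]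
    constructor
    · intro h
      exact ⟨fun m' hm' => h m' (by omega), h m (by omega)⟩
    · rintro ⟨h1, h2⟩ m' hm'
      rcases Nat.lt_succ_iff_lt_or_eq.1 hm' with h | h
      · exact h1 m' h
      · rw [h]
        exact h2
  have hmap : ∀ (A : Submodule k V) (q : V →ₗ[k] V),
      Module.finrank k (A.map q) + Module.finrank k (A ⊓ LinearMap.ker q : Submodule k V)
        = Module.finrank k A := by
    intro A q
    have h := LinearMap.finrank_range_add_finrank_ker (q.domRestrict A)
    rw [LinearMap.range_domRestrict] at h
    rw [← h]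
    congr 1
    rw [LinearMap.ker_domRestrict, ← Submodule.map_comap_subtype]
    exact Submodule.finrank_map_subtype_eq A _
  have main : ∀ m r, m + r = N →
      Module.finrank k (LinearMap.ker (f + g) ⊓ F m : Submodule k V) ≤
        Module.finrank k (LinearMap.ker f ⊓ F m : Submodule k V) := by
    intro m r
    induction r generalizing m with
    | zero =>
        intro h
        have : m = N := by omega
        rw [this, hFN, inf_bot_eq, inf_bot_eq]
    | succ r ih =>
        intro h
        have ih' := ih (m + 1) (by omega)
        have e1 := hmap (LinearMap.ker (f + g) ⊓ F m) (p m)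
        rw [inf_assoc, ← hFs m] at e1
        -- the leading terms lie in `ker f`
        have hsub : (LinearMap.ker (f + g) ⊓ F m).map (p m) ≤ LinearMap.ker f ⊓ F m := by
          rintro _ ⟨v, ⟨hv1, hv2⟩, rfl⟩
          refine ⟨?_, ?_⟩
          · rw [SetLike.mem_coe, LinearMap.mem_ker] at *
            cases m with
            | zero => exact hf0 v
            | succ m =>
                rw [hf m v]
                have h1 : f v = - g v := by
                  have : f v + g v = 0 := hv1
                  exact eq_neg_of_add_eq_zero_left this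
                rw [h1, map_neg, ← hg m v, hv2 m (by omega), map_zero, neg_zero]
          · intro m' hm'
            exact hpq m' m v (by omega)
        have hdis : Disjoint ((LinearMap.ker (f + g) ⊓ F m).map (p m))
            (LinearMap.ker f ⊓ F (m + 1)) := by
          rw [Submodule.disjoint_def]
          rintro _ ⟨v, hv, rfl⟩ ⟨_, h2⟩
          have := h2 m (by omega)
          rw [hpp] at this
          exact this
        have hle : (LinearMap.ker (f + g) ⊓ F m).map (p m) ⊔ (LinearMap.ker f ⊓ F (m + 1)) ≤
            LinearMap.ker f ⊓ F m := by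
          refine sup_le hsub ?_
          rw [hFs m]
          exact inf_le_inf_left _ inf_le_left
        have e2 := Submodule.finrank_mono hle
        have e3 := Submodule.finrank_sup_add_finrank_inf_eq
          ((LinearMap.ker (f + g) ⊓ F m).map (p m)) (LinearMap.ker f ⊓ F (m + 1))
        rw [hdis.eq_bot, finrank_bot, add_zero] at e3
        omega
  have := main 0 N (by omega)
  rwa [hF0, inf_top_eq, inf_top_eq] at this

end filtration

end Q48.Car
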