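import Pool.Agent.Q48.Car.Chain

/-!
# The homology of `C ↦ D * C + C * Dᵀ`
-/

namespace Q48.Car

open Matrix

variable {R : Type*} [CommRing R] {n : ℕ}

/-- The differential `C ↦ D * C + C * Dᵀ` (the matrix form of `D ⊗ 1 + 1 ⊗ D`). -/
def par (k : Type*) [Field k] [Algebra k R] (D : Mt R n) : Mt R n →ₗ[k] Mt R n where
  toFun C := D * C + C * Dᵀ
  map_add' C C' := by
    rw [mul_add, add_mul]
    abel
  map_smul' r C := by
    simp only [mul_smul_comm, smul_mul_assoc, smul_add, RingHom.id_apply]

variable {k : Type*} [Field k] [Algebra k R]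

theorem par_apply (D C : Mt R n) : par k D C = D * C + C * Dᵀ := rfl

/-- `C ↦ C + Cᵀ`. -/
def nrm (k : Type*) [Field k] [Algebra k R] : Mt R n →ₗ[k] Mt R n where
  toFun C := C + Cᵀ
  map_add' C C' := by
    rw [Matrix.transpose_add]
    abel
  map_smul' r C := by
    simp only [Matrix.transpose_smul, smul_add, RingHom.id_apply]

theorem nrm_apply (C : Mt R n) : nrm k C = C + Cᵀ := rfl

/-- the diagonal -/
def dg (k : Type*) [Field k] [Algebra k R] : Mt R n →ₗ[k] (Fin n → R) where
  toFun C := fun i => C i i
  map_add' _ _ := rfl
  map_smul' _ _ := rfl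

/-- projection to the entries of a given degree -/
def pr (k : Type*) [Field k] [Algebra k R] (deg : Fin n → ℕ) (m : ℕ) : Mt R n →ₗ[k] Mt R n where
  toFun C := Matrix.of fun i j => if deg i + deg j = m then C i j else 0
  map_add' C C' := by
    ext i j
    simp only [Matrix.add_apply, Matrix.of_apply]
    split_ifs
    · rfl
    · rw [add_zero]
  map_smul' r C := by
    ext i j
    simp only [Matrix.smul_apply, RingHom.id_apply, Matrix.of_apply]
    split_ifs
    · rfl
    · rw [smul_zero]

theorem pr_apply (deg : Fin n → ℕ) (m : ℕ) (C : Mt R n) (i j : Fin n) :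
    pr k deg m C i j = if deg i + deg j = m then C i j else 0 := rfl

theorem par_entry (D C : Mt R n) (i j : Fin n) :
    par k D C i j = ∑ l, D i l * C l j + ∑ l, C i l * D j l := by
  rw [par_apply, Matrix.add_apply, Matrix.mul_apply, Matrix.mul_apply]
  rfl

variable [FiniteDimensional k R]

theorem sym_count [CharP R 2] :
    Module.finrank k (Mt R n) + n * Module.finrank k R ≤
      2 * Module.finrank k (LinearMap.ker (nrm k : Mt R n →ₗ[k] Mt R n)) := by
  have h1 := LinearMap.finrank_range_add_finrank_ker (nrm k : Mt R n →ₗ[k] Mt R n)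
  set K := LinearMap.ker (nrm k : Mt R n →ₗ[k] Mt R n) with hK
  have h2 := LinearMap.finrank_range_add_finrank_ker ((dg k : Mt R n →ₗ[k] (Fin n → R)).domRestrict K)
  have hsurj : LinearMap.range ((dg k : Mt R n →ₗ[k] (Fin n → R)).domRestrict K) = ⊤ := by
    rw [LinearMap.range_eq_top]
    intro v
    refine ⟨⟨Matrix.diagonal v, ?_⟩, ?_⟩
    · rw [hK, LinearMap.mem_ker, nrm_apply, Matrix.diagonal_transpose, add_self_mat]
    · funext i
      exact Matrix.diagonal_apply_eq v i
  rw [hsurj, finrank_top, Module.finrank_pi_fintype] at h2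
  simp only [Finset.sum_const, Finset.card_univ, Fintype.card_fin, smul_eq_mul] at h2
  have h3 : Module.finrank k (LinearMap.range (nrm k : Mt R n →ₗ[k] Mt R n)) ≤
      Module.finrank k (LinearMap.ker ((dg k : Mt R n →ₗ[k] (Fin n → R)).domRestrict K)) := by
    rw [LinearMap.ker_domRestrict, ← Submodule.finrank_map_subtype_eq, Submodule.map_comap_subtype]
    refine Submodule.finrank_mono ?_
    rintro _ ⟨C, rfl⟩
    refine ⟨?_, ?_⟩
    · rw [hK, SetLike.mem_coe, LinearMap.mem_ker, nrm_apply, nrm_apply, Matrix.transpose_add,
        Matrix.transpose_transpose, add_comm Cᵀ C, add_self_mat]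
    · rw [SetLike.mem_coe, LinearMap.mem_ker]
      funext i
      change C i i + C i i = 0
      exact CharTwo.add_self_eq_zero _
  omega

theorem homology_ge [CharP R 2] (D : Mt R n) (deg : Fin n → ℕ)
    (hdeg : ∀ i j, D i j ≠ 0 → deg j = deg i + 1)
    (T : Mt R n →ₗ[R] Mt R n) (hT : Function.Injective T)
    (h : ∀ C : Mt R n, C + Cᵀ = 0 → D * T C + T C * Dᵀ = T C + (T C)ᵀ) :
    n * Module.finrank k R + Module.finrank k (LinearMap.range (par k D)) ≤
      Module.finrank k (LinearMap.ker (par k D)) := by
  have h1 : Module.finrank k (LinearMap.ker (nrm k : Mt R n →ₗ[k] Mt R n)) ≤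
      Module.finrank k (LinearMap.ker (par k D + nrm k)) := by
    rw [← LinearMap.finrank_range_of_inj (f := (T.restrictScalars k).domRestrict
      (LinearMap.ker (nrm k : Mt R n →ₗ[k] Mt R n))) ?_]
    · refine Submodule.finrank_mono ?_
      rintro _ ⟨⟨C, hC⟩, rfl⟩
      rw [LinearMap.mem_ker] at hC ⊢
      rw [LinearMap.add_apply, par_apply, nrm_apply]
      change D * T C + T C * Dᵀ + (T C + (T C)ᵀ) = 0
      rw [h C hC, add_self_mat]
    · intro a b hab
      exact Subtype.ext (hT hab)
  have h2 : Module.finrank k (LinearMap.ker (par k D + nrm k)) ≤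
      Module.finrank k (LinearMap.ker (par k D)) := by
    obtain ⟨N, hN⟩ : ∃ N, ∀ i j, deg i + deg j < N := by
      refine ⟨(∑ i, deg i) + (∑ i, deg i) + 1, fun i j => ?_⟩
      have := Finset.single_le_sum (f := deg) (fun i _ => Nat.zero_le _) (Finset.mem_univ i)
      have := Finset.single_le_sum (f := deg) (fun i _ => Nat.zero_le _) (Finset.mem_univ j)
      omega
    refine finrank_ker_le (pr k deg) N ?_ ?_ ?_ (par k D) (nrm k) ?_ ?_ ?_
    · intro v hv
      ext i j
      have := congrFun (congrFun (hv (deg i + deg j) (hN i j)) i) j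
      rw [pr_apply, if_pos rfl] at this
      exact this
    · intro m v
      ext i j
      rw [pr_apply, pr_apply]
      split_ifs <;> rfl
    · intro m m' v hm
      ext i j
      rw [pr_apply, pr_apply]
      split_ifs with h1 h2
      · exact absurd (h1.symm.trans h2) hm
      · rfl
      · rfl
    · intro v
      ext i j
      rw [par_entry]
      have e1 : ∀ l, D i l * pr k deg 0 v l j = 0 := by
        intro l
        by_cases hD : D i l = 0
        · rw [hD, zero_mul]
        · rw [pr_apply, if_neg, mul_zero]
          have := hdeg i l hD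
          omega
      have e2 : ∀ l, pr k deg 0 v i l * D j l = 0 := by
        intro l
        by_cases hD : D j l = 0
        · rw [hD, mul_zero]
        · rw [pr_apply, if_neg, zero_mul]
          have := hdeg j l hD
          omega
      simp only [e1, e2, Finset.sum_const_zero, add_zero]
      rfl
    · intro m v
      ext i j
      rw [pr_apply, par_entry, par_entry]
      have e1 : ∀ l, D i l * pr k deg (m + 1) v l j =
          if deg i + deg j = m then D i l * v l j else 0 := by
        intro l
        by_cases hD : D i l = 0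
        · simp [hD]
        · have := hdeg i l hD
          rw [pr_apply]
          by_cases hm : deg i + deg j = m
          · rw [if_pos hm, if_pos (by omega)]
          · rw [if_neg hm, if_neg (by omega), mul_zero]
      have e2 : ∀ l, pr k deg (m + 1) v i l * D j l =
          if deg i + deg j = m then v i l * D j l else 0 := by
        intro l
        by_cases hD : D j l = 0
        · simp [hD]
        · have := hdeg j l hD
          rw [pr_apply]
          by_cases hm : deg i + deg j = m
          · rw [if_pos hm, if_pos (by omega)]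
          · rw [if_neg hm, if_neg (by omega), zero_mul]
      simp only [e1, e2]
      split_ifs
      · rfl
      · simp
    · intro m v
      ext i j
      rw [nrm_apply, pr_apply, nrm_apply, Matrix.add_apply, Matrix.add_apply,
        Matrix.transpose_apply, Matrix.transpose_apply, pr_apply, pr_apply, add_comm (deg j)]
      split_ifs
      · rfl
      · rw [add_zero]
  have h3 := sym_count (k := k) (R := R) (n := n)
  have h4 := LinearMap.finrank_range_add_finrank_ker (par k D)
  omega

end Q48.Car
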