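import Pool.Agent.Q48.Car.Ring

/-!
# The total homology of `P ⊗ P` over `k[x_1, …, x_d] / (x_i ^ 2)`, characteristic two
-/

namespace Q48.Car

open MvPolynomial Matrix

variable {k : Type*} [Field k] [CharP k 2] {d n : ℕ}

instance charTwo_rg : CharP (Rg k d) 2 := by
  have h : (1 : Rg k d) ≠ 0 := by
    intro h
    let e : Rg k d →ₐ[k] k := lft (fun _ => 0) (fun _ => mul_zero _)
    have h2 := congrArg e h
    rw [map_one, map_zero] at h2
    exact one_ne_zero h2
  haveI : Nontrivial (Rg k d) := ⟨⟨1, 0, h⟩⟩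
  exact charP_of_injective_algebraMap (algebraMap k (Rg k d)).injective 2

/-- **Main inequality** in matrix form. -/
theorem main (D : Mt (Rg k d) n) (hD : D * D = 0) (deg : Fin n → ℕ)
    (hdeg : ∀ i j, D i j ≠ 0 → deg j = deg i + 1) (hnil : ∀ i j, IsNilpotent (D i j)) :
    2 ^ d * n + Module.finrank k (LinearMap.range (par k D)) ≤
      Module.finrank k (LinearMap.ker (par k D)) := by
  obtain ⟨T, hT, h⟩ := chain (R := Rg k d) (n := n) d (fun j => D.map (pij j))
    (fun j => D.map fun r => (psi j r).snd) (fun j => xn j) (fun j _ => xn_mul_self j)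
    (by
      intro j hj
      ext i l
      rw [Matrix.map_apply, pij_eq j hj, Matrix.add_apply, Matrix.smul_apply, Matrix.map_apply,
        Matrix.map_apply, smul_eq_mul, add_comm, mul_comm])
    (by
      intro j hj
      ext i l
      have h0 : ∑ m, D i m * D m l = 0 := by
        have := congrFun (congrFun hD i) l
        rwa [Matrix.mul_apply] at this
      have h1 := congrArg (fun r => (psi j r).snd) h0
      simp only [map_sum, map_mul, map_zero, TrivSqZeroExt.snd_sum, TrivSqZeroExt.snd_mul,
        TrivSqZeroExt.snd_zero, fst_psi] at h1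
      rw [Matrix.add_apply, Matrix.mul_apply, Matrix.mul_apply, ← Finset.sum_add_distrib,
        Matrix.zero_apply, ← h1]
      refine Finset.sum_congr rfl fun m _ => ?_
      rw [Matrix.map_apply, Matrix.map_apply, Matrix.map_apply, Matrix.map_apply, smul_eq_mul,
        MulOpposite.smul_eq_mul_unop, MulOpposite.unop_op])
    (by
      ext i l
      rw [Matrix.map_apply, pij_last _ (hnil i l)]
      rfl)
  have e0 : D.map (pij 0) = D := by
    ext i l
    rw [Matrix.map_apply, pij_zero]
  rw [e0] at h
  have h2 := homology_ge (k := k) D deg hdeg T hT h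
  have h3 := Nat.mul_le_mul_left n (finrank_rg_ge (k := k) (d := d))
  rw [mul_comm n (2 ^ d)] at h3
  omega

/-- the identification of functions on pairs with matrices -/
def cur : (Fin n × Fin n → Rg k d) ≃ₗ[k] Mt (Rg k d) n where
  toFun v := Matrix.of fun i j => v (i, j)
  invFun C := fun p => C p.1 p.2
  map_add' _ _ := rfl
  map_smul' _ _ := rfl
  left_inv _ := rfl
  right_inv _ := rfl

theorem conj (D : Mt (Rg k d) n) (v : Fin n × Fin n → Rg k d) :
    cur ((Matrix.mulVecLin (Matrix.kronecker D (1 : Matrix (Fin n) (Fin n) (Rg k d)) +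
      Matrix.kronecker (1 : Matrix (Fin n) (Fin n) (Rg k d)) D)) v) = par k D (cur v) := by
  ext i j
  rw [par_entry]
  change ((Matrix.kronecker D 1 + Matrix.kronecker 1 D) *ᵥ v) (i, j) = _
  rw [Matrix.add_mulVec, Pi.add_apply]
  congr 1
  · rw [Matrix.mulVec, dotProduct, Fintype.sum_prod_type]
    refine Finset.sum_congr rfl fun l _ => ?_
    rw [Finset.sum_eq_single j]
    · change D i l * (1 : Matrix (Fin n) (Fin n) (Rg k d)) j j * v (l, j) = D i l * v (l, j)
      rw [Matrix.one_apply_eq, mul_one]
    · intro m _ hm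
      change D i l * (1 : Matrix (Fin n) (Fin n) (Rg k d)) j m * v (l, m) = 0
      rw [Matrix.one_apply_ne hm.symm, mul_zero, zero_mul]
    · intro h
      exact absurd (Finset.mem_univ j) h
  · rw [Matrix.mulVec, dotProduct, Fintype.sum_prod_type, Finset.sum_eq_single i]
    · refine Finset.sum_congr rfl fun l _ => ?_
      change (1 : Matrix (Fin n) (Fin n) (Rg k d)) i i * D j l * v (i, l) = v (i, l) * D j l
      rw [Matrix.one_apply_eq, one_mul, mul_comm]
    · intro m _ hm
      refine Finset.sum_eq_zero fun l _ => ?_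
      change (1 : Matrix (Fin n) (Fin n) (Rg k d)) i m * D j l * v (m, l) = 0
      rw [Matrix.one_apply_ne hm.symm, zero_mul, zero_mul]
    · intro h
      exact absurd (Finset.mem_univ i) h

theorem main' (D : Mt (Rg k d) n) (hD : D * D = 0)
    (hdeg : ∃ deg : Fin n → ℕ, ∀ i j, D i j ≠ 0 → deg j = deg i + 1)
    (hnil : ∀ i j, IsNilpotent (D i j)) :
    2 ^ d * n + Module.finrank k (LinearMap.range
        ((Matrix.mulVecLin (Matrix.kronecker D (1 : Matrix (Fin n) (Fin n) (Rg k d)) +
          Matrix.kronecker (1 : Matrix (Fin n) (Fin n) (Rg k d)) D)).restrictScalars k)) ≤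
      Module.finrank k (LinearMap.ker
        ((Matrix.mulVecLin (Matrix.kronecker D (1 : Matrix (Fin n) (Fin n) (Rg k d)) +
          Matrix.kronecker (1 : Matrix (Fin n) (Fin n) (Rg k d)) D)).restrictScalars k)) := by
  obtain ⟨deg, hdeg⟩ := hdeg
  have h := main D hD deg hdeg hnil
  set f := (Matrix.mulVecLin (Matrix.kronecker D (1 : Matrix (Fin n) (Fin n) (Rg k d)) +
          Matrix.kronecker (1 : Matrix (Fin n) (Fin n) (Rg k d)) D)).restrictScalars k with hf
  have hc : ∀ v, cur (f v) = par k D (cur v) := fun v => conj D v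
  have e1 : (LinearMap.range f).map (cur : _ ≃ₗ[k] Mt (Rg k d) n).toLinearMap =
      LinearMap.range (par k D) := by
    ext C
    constructor
    · rintro ⟨_, ⟨v, rfl⟩, rfl⟩
      exact ⟨cur v, (hc v).symm⟩
    · rintro ⟨C', rfl⟩
      refine ⟨f (cur.symm C'), ⟨_, rfl⟩, ?_⟩
      have := hc (cur.symm C')
      rw [LinearEquiv.apply_symm_apply] at this
      exact this
  have e2 : (LinearMap.ker f).map (cur : _ ≃ₗ[k] Mt (Rg k d) n).toLinearMap =
      LinearMap.ker (par k D) := by
    ext C
    constructor
    · rintro ⟨v, hv, rfl⟩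
      rw [LinearMap.mem_ker]
      have h1 : f v = 0 := hv
      have h2 := hc v
      rw [h1, map_zero] at h2
      exact h2.symm
    · intro hC
      rw [LinearMap.mem_ker] at hC
      refine ⟨cur.symm C, ?_, LinearEquiv.apply_symm_apply _ _⟩
      have h2 := hc (cur.symm C)
      rw [LinearEquiv.apply_symm_apply, hC] at h2
      exact (LinearEquiv.map_eq_zero_iff _).1 h2
  rw [← e1, ← e2, LinearEquiv.finrank_map_eq, LinearEquiv.finrank_map_eq] at h
  exact h

end Q48.Car
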