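import Pool.Agent.Q48.Car.Count

/-!
# The ring `k[x_1, …, x_d] / (x_i ^ 2)`
-/

namespace Q48.Car

open MvPolynomial

noncomputable section

variable (k : Type*) [Field k] (d : ℕ)

/-- the ideal of the squares of the variables -/
def sqI : Ideal (MvPolynomial (Fin d) k) :=
  Ideal.span (Set.range (fun i : Fin d => (MvPolynomial.X i : MvPolynomial (Fin d) k) ^ 2))

/-- the ring -/
abbrev Rg := MvPolynomial (Fin d) k ⧸ sqI k d

variable {k d}

/-- the class of a variable -/
def xv (i : Fin d) : Rg k d := Ideal.Quotient.mk _ (X i)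

theorem xv_mul_self (i : Fin d) : (xv i : Rg k d) * xv i = 0 := by
  rw [xv, ← map_mul, ← pow_two, Ideal.Quotient.eq_zero_iff_mem]
  exact Ideal.subset_span ⟨i, rfl⟩

theorem aeval_sqI {A : Type*} [CommRing A] [Algebra k A] (f : Fin d → A)
    (hf : ∀ i, f i * f i = 0) (a : MvPolynomial (Fin d) k) (ha : a ∈ sqI k d) :
    aeval f a = 0 := by
  have h : sqI k d ≤ RingHom.ker (aeval f : MvPolynomial (Fin d) k →ₐ[k] A) := by
    rw [sqI, Ideal.span_le]
    rintro _ ⟨i, rfl⟩
    rw [SetLike.mem_coe, RingHom.mem_ker, map_pow, aeval_X, pow_two, hf]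
  exact (RingHom.mem_ker).1 (h ha)

/-- homomorphisms out of `Rg` -/
def lft {A : Type*} [CommRing A] [Algebra k A] (f : Fin d → A) (hf : ∀ i, f i * f i = 0) :
    Rg k d →ₐ[k] A :=
  Ideal.Quotient.liftₐ (sqI k d) (aeval f) (aeval_sqI f hf)

theorem lft_xv {A : Type*} [CommRing A] [Algebra k A] (f : Fin d → A) (hf : ∀ i, f i * f i = 0)
    (i : Fin d) : lft f hf (xv i : Rg k d) = f i := by
  have h := Ideal.Quotient.liftₐ_apply (sqI k d) (aeval f) (aeval_sqI f hf) (xv i)
  rw [lft, h]
  exact aeval_X f i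

theorem rg_ext {A : Type*} [CommRing A] [Algebra k A] (f g : Rg k d →ₐ[k] A)
    (h : ∀ i, f (xv i) = g (xv i)) : f = g := by
  apply Ideal.Quotient.algHom_ext
  apply MvPolynomial.algHom_ext
  intro i
  exact h i

/-- setting the variables with index `< j` to zero -/
def pij (j : ℕ) : Rg k d →ₐ[k] Rg k d :=
  lft (fun i => if (i : ℕ) < j then 0 else xv i) (by
    intro i
    split_ifs
    · rw [mul_zero]
    · rw [xv_mul_self])

/-- the Taylor expansion in the variable with index `j` after setting those of index `< j`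
to zero -/
def psi (j : ℕ) : Rg k d →ₐ[k] DualNumber (Rg k d) :=
  lft (A := DualNumber (Rg k d)) (fun i => if (i : ℕ) < j then 0 else
      if (i : ℕ) = j then DualNumber.eps else TrivSqZeroExt.inl (xv i)) (by
    intro i
    split_ifs
    · rw [mul_zero]
    · rw [DualNumber.eps_mul_eps]
    · rw [TrivSqZeroExt.inl_mul_inl, xv_mul_self, TrivSqZeroExt.inl_zero])

/-- the variable with index `j`, or zero -/
def xn (j : ℕ) : Rg k d := if h : j < d then xv ⟨j, h⟩ else 0

theorem xn_mul_self (j : ℕ) : (xn j : Rg k d) * xn j = 0 := by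
  rw [xn]
  split_ifs
  · exact xv_mul_self _
  · rw [mul_zero]

theorem fst_psi (j : ℕ) (r : Rg k d) : (psi j r).fst = pij (j + 1) r := by
  have h : (TrivSqZeroExt.fstHom k (Rg k d) (Rg k d)).comp (psi j) = pij (j + 1) := by
    apply rg_ext
    intro i
    rw [AlgHom.comp_apply, psi, lft_xv, pij, lft_xv, TrivSqZeroExt.fstHom_apply]
    by_cases h1 : (i : ℕ) < j
    · rw [if_pos h1, if_pos (by omega), TrivSqZeroExt.fst_zero]
    · rw [if_neg h1]
      by_cases h2 : (i : ℕ) = j
      · rw [if_pos h2, if_pos (by omega), DualNumber.fst_eps]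
      · rw [if_neg h2, if_neg (by omega), TrivSqZeroExt.fst_inl]
  exact DFunLike.congr_fun h r

/-- evaluation `ε ↦ x_j` -/
def evj (j : ℕ) : DualNumber (Rg k d) →ₐ[k] Rg k d :=
  DualNumber.lift ⟨(AlgHom.id k (Rg k d), xn j), xn_mul_self j, fun _ => Commute.all _ _⟩

theorem evj_apply (j : ℕ) (a : DualNumber (Rg k d)) : evj j a = a.fst + a.snd * xn j := by
  rw [evj, DualNumber.lift_apply_apply]
  rfl

theorem pij_eq (j : ℕ) (hj : j < d) (r : Rg k d) :
    pij j r = pij (j + 1) r + (psi j r).snd * xn j := by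
  have h : (evj j).comp (psi j) = (pij j : Rg k d →ₐ[k] Rg k d) := by
    apply rg_ext
    intro i
    rw [AlgHom.comp_apply, psi, lft_xv, pij, lft_xv, evj_apply]
    by_cases h1 : (i : ℕ) < j
    · rw [if_pos h1, if_pos h1, TrivSqZeroExt.fst_zero, TrivSqZeroExt.snd_zero, zero_mul, add_zero]
    · rw [if_neg h1, if_neg h1]
      by_cases h2 : (i : ℕ) = j
      · rw [if_pos h2, DualNumber.fst_eps, DualNumber.snd_eps, one_mul, zero_add, xn, dif_pos hj]
        congr 1
        exact Fin.ext h2.symm
      · rw [if_neg h2, TrivSqZeroExt.fst_inl, TrivSqZeroExt.snd_inl, zero_mul, add_zero]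
  rw [← fst_psi, ← evj_apply, ← AlgHom.comp_apply, h]

theorem pij_zero (r : Rg k d) : pij 0 r = r := by
  have h : (pij 0 : Rg k d →ₐ[k] Rg k d) = AlgHom.id k _ := by
    apply rg_ext
    intro i
    rw [pij, lft_xv, if_neg (Nat.not_lt_zero _)]
    rfl
  rw [h]
  rfl

theorem pij_last (r : Rg k d) (hr : IsNilpotent r) : pij d r = 0 := by
  let e : Rg k d →ₐ[k] k := lft (fun _ => 0) (fun _ => mul_zero _)
  have h : (pij d : Rg k d →ₐ[k] Rg k d) = (Algebra.ofId k (Rg k d)).comp e := by
    apply rg_ext
    intro i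
    rw [pij, lft_xv, if_pos i.2, AlgHom.comp_apply]
    simp only [e, lft_xv, map_zero]
  have h2 : e r = 0 := (hr.map e).eq_zero
  rw [h, AlgHom.comp_apply, h2, map_zero]

instance fin_rg : Module.Finite k (Rg k d) := by
  have h1 : Algebra.IsIntegral k (Rg k d) := by
    constructor
    intro r
    obtain ⟨p, rfl⟩ := Ideal.Quotient.mk_surjective r
    induction p using MvPolynomial.induction_on with
    | C a => exact isIntegral_algebraMap
    | add p q hp hq =>
        rw [map_add]
        exact hp.add hq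
    | mul_X p i hp =>
        rw [map_mul]
        refine hp.mul ?_
        refine ⟨Polynomial.X ^ 2, Polynomial.monic_X_pow 2, ?_⟩
        rw [Polynomial.eval₂_pow, Polynomial.eval₂_X, pow_two]
        exact xv_mul_self i
  exact (Algebra.finite_iff_isIntegral_and_finiteType.2 ⟨h1, inferInstance⟩)

/-- the exponent of a squarefree monomial -/
noncomputable def sqf (A : Finset (Fin d)) : Fin d →₀ ℕ := ∑ i ∈ A, Finsupp.single i 1

theorem sqf_apply (A : Finset (Fin d)) (i : Fin d) : sqf A i = if i ∈ A then 1 else 0 := by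
  classical
  rw [sqf, Finsupp.finsetSum_apply]
  simp only [Finsupp.single_apply]
  rw [Finset.sum_ite_eq']

theorem finrank_rg_ge : 2 ^ d ≤ Module.finrank k (Rg k d) := by
  classical
  let L : MvPolynomial (Fin d) k →ₗ[k] (Finset (Fin d) → k) :=
    LinearMap.pi fun A => MvPolynomial.lcoeff k (sqf A)
  have hL : (sqI k d).restrictScalars k ≤ LinearMap.ker L := by
    intro p hp
    rw [Submodule.restrictScalars_mem] at hp
    rw [LinearMap.mem_ker]
    funext A
    change MvPolynomial.coeff (sqf A) p = 0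
    rw [sqI] at hp
    obtain ⟨c, hc⟩ := (Ideal.mem_span_range_iff_exists_fun).1 hp
    rw [← hc, MvPolynomial.coeff_sum]
    refine Finset.sum_eq_zero fun i _ => ?_
    rw [MvPolynomial.X_pow_eq_monomial, MvPolynomial.coeff_mul_monomial', if_neg]
    intro h
    have := h i
    rw [sqf_apply, Finsupp.single_apply, if_pos rfl] at this
    split_ifs at this <;> omega
  let L' : Rg k d →ₗ[k] (Finset (Fin d) → k) :=
    Submodule.liftQ ((sqI k d).restrictScalars k) L hL
  have hsurj : Function.Surjective L' := by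
    intro v
    refine ⟨Ideal.Quotient.mk _ (∑ A, MvPolynomial.monomial (sqf A) (v A)), ?_⟩
    change L (∑ A, MvPolynomial.monomial (sqf A) (v A)) = v
    funext B
    change MvPolynomial.coeff (sqf B) (∑ A, MvPolynomial.monomial (sqf A) (v A)) = v B
    rw [MvPolynomial.coeff_sum, Finset.sum_eq_single B]
    · rw [MvPolynomial.coeff_monomial, if_pos rfl]
    · intro A _ hA
      rw [MvPolynomial.coeff_monomial, if_neg]
      intro h
      apply hA
      ext i
      have := DFunLike.congr_fun h i
      rw [sqf_apply, sqf_apply] at this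
      by_cases h1 : i ∈ A
      · by_cases h2 : i ∈ B
        · exact ⟨fun _ => h2, fun _ => h1⟩
        · rw [if_pos h1, if_neg h2] at this
          omega
      · by_cases h2 : i ∈ B
        · rw [if_neg h1, if_pos h2] at this
          omega
        · exact ⟨fun h => absurd h h1, fun h => absurd h h2⟩
    · intro h
      exact absurd (Finset.mem_univ B) h
  have h := LinearMap.finrank_le_finrank_of_surjective hsurj
  rw [Module.finrank_fintype_fun_eq_card, Fintype.card_finset, Fintype.card_fin] at h
  exact h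

end

end Q48.Car
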