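import Mathlib

/-!
# The explicit Tate cycles

`R` is a commutative ring of characteristic two.  For a matrix `E` with `E * C + C * Eᵀ` we write
`par E C`.  The key step: if `par E s = s + sᵀ`, `B` commutes with `E` and `x ^ 2 = 0`, then
`s' = s + x • (B * sᵀ)` satisfies `par (x • B + E) s' = s' + s'ᵀ`.
-/

namespace Q48.Car

open Matrix

variable {R : Type*} [CommRing R] [CharP R 2] {n : ℕ}

abbrev Mt (R : Type*) (n : ℕ) := Matrix (Fin n) (Fin n) R

theorem add_self_mat (A : Mt R n) : A + A = 0 := by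
  ext i j
  simp only [Matrix.add_apply, Matrix.zero_apply]
  exact CharTwo.add_self_eq_zero _

/-- One step of the construction. -/
theorem step (E B s : Mt R n) (x : R) (hx : x * x = 0) (hc : E * B + B * E = 0)
    (hs : E * s + s * Eᵀ = s + sᵀ) :
    (x • B + E) * (s + x • (B * sᵀ)) + (s + x • (B * sᵀ)) * (x • B + E)ᵀ
      = (s + x • (B * sᵀ)) + (s + x • (B * sᵀ))ᵀ := by
  have hEB : E * B = B * E := by
    have h := add_self_mat (B * E)
    have : E * B + B * E = B * E + B * E := by rw [hc, h]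
    exact add_right_cancel this
  have hs' : E * sᵀ + sᵀ * Eᵀ = s + sᵀ := by
    have h := congrArg Matrix.transpose hs
    simp only [Matrix.transpose_add, Matrix.transpose_mul, Matrix.transpose_transpose] at h
    rw [add_comm (sᵀ * Eᵀ)] at h
    rw [h, add_comm]
  have e1 : (x • B + E) * (s + x • (B * sᵀ)) + (s + x • (B * sᵀ)) * (x • B + E)ᵀ
      = (E * s + s * Eᵀ) + x • (B * s + s * Bᵀ + (E * B) * sᵀ + B * (sᵀ * Eᵀ))
        + (x * x) • (B * (B * sᵀ) + B * sᵀ * Bᵀ) := by
    simp only [Matrix.transpose_add, Matrix.transpose_smul, add_mul, mul_add, smul_mul_assoc,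
      mul_smul_comm, smul_add, smul_smul, Matrix.mul_assoc]
    abel
  rw [e1, hx, zero_smul, add_zero, hEB, hs, Matrix.mul_assoc, add_assoc (B * s + s * Bᵀ),
    ← mul_add, hs', mul_add]
  simp only [Matrix.transpose_add, Matrix.transpose_smul, Matrix.transpose_mul,
    Matrix.transpose_transpose]
  have h3 : B * s + s * Bᵀ + (B * s + B * sᵀ) = s * Bᵀ + B * sᵀ := by
    have := add_self_mat (B * s)
    calc B * s + s * Bᵀ + (B * s + B * sᵀ) = (B * s + B * s) + (s * Bᵀ + B * sᵀ) := by abel
      _ = _ := by rw [this, zero_add]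
  rw [h3, smul_add]
  abel

/-- The operator `C ↦ C + x • (B * Cᵀ)`. -/
def Tm (B : Mt R n) (x : R) : Mt R n →ₗ[R] Mt R n where
  toFun C := C + x • (B * Cᵀ)
  map_add' C C' := by
    simp only [Matrix.transpose_add, mul_add, smul_add]
    abel
  map_smul' r C := by
    simp only [Matrix.transpose_smul, mul_smul_comm, smul_add, RingHom.id_apply]
    rw [smul_comm]

theorem Tm_apply (B : Mt R n) (x : R) (C : Mt R n) : Tm B x C = C + x • (B * Cᵀ) := rfl

theorem Tm_inj (B : Mt R n) (x : R) (hx : x * x = 0) : Function.Injective (Tm B x) := by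
  rw [← LinearMap.ker_eq_bot, LinearMap.ker_eq_bot']
  intro C hC
  rw [Tm_apply] at hC
  have h1 : C = x • (B * Cᵀ) := by
    have h := add_self_mat (x • (B * Cᵀ))
    exact add_right_cancel (hC.trans h.symm)
  have h2 : Cᵀ = x • (C * Bᵀ) := by
    conv_lhs => rw [h1]
    simp only [Matrix.transpose_smul, Matrix.transpose_mul, Matrix.transpose_transpose]
  rw [h1, h2]
  simp only [mul_smul_comm, smul_smul, hx, zero_smul]

end Q48.Car
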